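import Mathlib

/-!
# An optimal burning sequence that contains no minimum lazy burning set

Counterexample: vertices `0,1,2,3,4`, edges `{0,1,2}`, `{0,4}`, `{0,2,4}`, `{1,2,4}` (vertex `3` is isolated).
The burning number is 3 and `(1,2,3)` is an optimal burning sequence: in round 3 the vertices `0` and `4` catch
fire from `{1,2}`. The lazy burning number is 2 (for instance `{0,3}` is a lazy burning set), but no subset of
`{1,2,3}` with two elements is a lazy burning set.
-/

set_option autoImplicit false

open Finset

namespace Pool.Agent.Results.MP_50e72c_co.NoSubset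

variable {V : Type} [Fintype V] [DecidableEq V]

/-- One application of the propagation rule in the hypergraph with edge set `E`: the burned vertices `B`
together with all vertices `v` such that some edge `e` with at least two elements contains `v` and
`e \ {v} ⊆ B`. -/
def spread (E : Finset (Finset V)) (B : Finset V) : Finset V :=
  B ∪ univ.filter (fun v => ∃ e ∈ E, 2 ≤ e.card ∧ v ∈ e ∧ e \ {v} ⊆ B)

/-- The set of burned vertices after the rounds with sources `us = [u_1, …, u_k]`: in each round the
vertices which catch fire from the set burned before this round become burned, and the source of this round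
is set on fire. -/
def burned (E : Finset (Finset V)) (us : List V) : Finset V :=
  us.foldl (fun F u => spread E F ∪ {u}) ∅

/-- `us` is a burning sequence: each source is not burned at the end of the previous round, and at the end
all vertices are burned. -/
def IsBurningSequence (E : Finset (Finset V)) (us : List V) : Prop :=
  (∀ r (h : r < us.length), us[r] ∉ burned E (us.take r)) ∧ burned E us = univ

/-- `us` is an optimal burning sequence: a burning sequence of least length. -/
def IsOptimal (E : Finset (Finset V)) (us : List V) : Prop :=
  IsBurningSequence E us ∧ ∀ vs : List V, IsBurningSequence E vs → us.length ≤ vs.length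

/-- `S` is a lazy burning set: repeated application of the propagation rule to `S` burns all vertices. -/
def IsLazy (E : Finset (Finset V)) (S : Finset V) : Prop :=
  ∃ n : ℕ, (spread E)^[n] S = univ

/-- `S` is a minimum lazy burning set: a lazy burning set of smallest size. -/
def IsMinLazy (E : Finset (Finset V)) (S : Finset V) : Prop :=
  IsLazy E S ∧ ∀ S' : Finset V, IsLazy E S' → S.card ≤ S'.card

/-- the hypergraph of the counterexample -/
def E₀ : Finset (Finset (Fin 5)) := {{0, 1, 2}, {0, 4}, {0, 2, 4}, {1, 2, 4}}

lemma not_lazy (E : Finset (Finset V)) (S B : Finset V) (k : ℕ) (h1 : (spread E)^[k] S = B)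
    (h2 : spread E B = B) (h3 : B ≠ univ) : ¬ IsLazy E S := by
  rintro ⟨n, hn⟩
  have h4 : ∀ m, (spread E)^[m] B = B := fun m => by
    induction m with
    | zero => rfl
    | succ m ih => rw [Function.iterate_succ_apply', ih, h2]
  have hu : spread E univ = univ := by
    unfold spread
    exact eq_univ_of_forall (fun v => mem_union_left _ (mem_univ v))
  have h5 : ∀ m, (spread E)^[m] (univ : Finset V) = univ := fun m => by
    induction m with
    | zero => rfl
    | succ m ih => rw [Function.iterate_succ_apply', ih, hu]
  have h6 : (spread E)^[n + k] S = B := by rw [Function.iterate_add_apply, h1, h4]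
  have h7 : (spread E)^[n + k] S = univ := by
    rw [add_comm, Function.iterate_add_apply, hn, h5]
  exact h3 (h6.symm.trans h7)

theorem result : ∃ (V : Type) (_ : Fintype V) (_ : DecidableEq V) (E : Finset (Finset V))
    (us : List V), Nonempty V ∧ IsOptimal E us ∧ ¬ ∃ S : Finset V, S ⊆ us.toFinset ∧ IsMinLazy E S := by
  refine ⟨Fin 5, inferInstance, inferInstance, E₀, [1, 2, 3], inferInstance, ⟨⟨?_, ?_⟩, ?_⟩, ?_⟩
  · intro r h
    simp only [List.length_cons, List.length_nil] at h
    have : r = 0 ∨ r = 1 ∨ r = 2 := by omega
    rcases this with rfl | rfl | rfl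
    · show (1 : Fin 5) ∉ burned E₀ []
      decide +kernel
    · show (2 : Fin 5) ∉ burned E₀ [1]
      decide +kernel
    · show (3 : Fin 5) ∉ burned E₀ [1, 2]
      decide +kernel
  · decide +kernel
  · intro vs hvs
    by_contra hlt
    simp only [List.length_cons, List.length_nil, not_le] at hlt
    have hb := hvs.2
    match vs, hlt, hb with
    | [], _, hb => exact absurd hb (by decide +kernel)
    | [a], _, hb =>
      have : ∀ a : Fin 5, burned E₀ [a] ≠ univ := by decide +kernel
      exact this a hb
    | [a, b], _, hb =>
      have : ∀ a b : Fin 5, burned E₀ [a, b] ≠ univ := by decide +kernel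
      exact this a b hb
    | a :: b :: c :: l, hlt, _ =>
      simp only [List.length_cons] at hlt
      omega
  · rintro ⟨S, hS, hlazy, hmin⟩
    have h03 : IsLazy E₀ {0, 3} := ⟨3, by decide +kernel⟩
    have hcard : S.card ≤ 2 := (hmin _ h03).trans (by decide)
    have key : ∀ S : Finset (Fin 5), S ⊆ ([1, 2, 3] : List (Fin 5)).toFinset → S.card ≤ 2 →
        spread E₀ ((spread E₀)^[1] S) = (spread E₀)^[1] S ∧ (spread E₀)^[1] S ≠ univ := by
      decide +kernel
    obtain ⟨h1, h2⟩ := key S hS hcard
    exact not_lazy E₀ S _ 1 rfl h1 h2 hlazy

end Pool.Agent.Results.MP_50e72c_co.NoSubset
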